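import Pool.Agent.KS6_59.PR.Scaled

/-!
# Monochromatic patterns `{x, x + P(d), x + Q(d) + 1/d}` in finite colourings of fields

The pattern `{x, x + d, x + 1/d}` of the question is extended to all finite families of polynomials
`P` without constant term, in several variables, together with one more point `x + L(d)`, where the
Laurent polynomial `L` is the sum of a polynomial without constant term and of Laurent monomials
whose exponent vectors are part of a basis of `ℤ ^ k` (for instance `e / d`, or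
`e₁ / d₁ + e₂ d₁ / d₂`). This holds over every infinite field, and with `d` in any infinite domain
with that field of fractions.

The proof uses the polynomial Hales-Jewett theorem. The finite statement by induction on the number
of colours lives on the product of a space with one coordinate for each monomial (scaled by the
power of the step which is the degree of the monomial) and a space of heights with one coordinate
for each Laurent monomial.

One more point cannot be replaced by two: `{x, x + d, x + e/d, x + d + e/d}` is not partition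
regular over `ℚ`, because `(x + d + e/d)² - (x + d)² - (x + e/d)² + x² = 2 e`.
-/

set_option autoImplicit false
set_option maxHeartbeats 1000000

namespace Pool.Agent.Results.MP_f16d24_co.LaurentPatterns

open Finset Pool.Agent.Results.MP_f16d24_co.InfiniteFields Pool.Agent.KS6_59.PR

/-- the one-variable polynomial `P` as a polynomial in the variable `0` -/
theorem eval_one {K : Type} [Field K] (P : Polynomial K) (d : K) :
    MvPolynomial.eval (fun _ : Fin 1 => d) (Polynomial.aeval (MvPolynomial.X 0) P) =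
      P.eval d := by
  have h := Polynomial.hom_eval₂ P (algebraMap K (MvPolynomial (Fin 1) K))
    (MvPolynomial.eval (fun _ : Fin 1 => d)) (MvPolynomial.X 0)
  rw [Polynomial.aeval_def, h]
  have h2 : (MvPolynomial.eval (fun _ : Fin 1 => d)).comp
      (algebraMap K (MvPolynomial (Fin 1) K)) = RingHom.id K := by
    ext x
    simp [MvPolynomial.algebraMap_eq]
  rw [h2, MvPolynomial.eval_X]
  simp [Polynomial.eval₂_id]

theorem constantCoeff_one {K : Type} [Field K] (P : Polynomial K) (hP : P.eval 0 = 0) :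
    MvPolynomial.constantCoeff
      (Polynomial.aeval (MvPolynomial.X 0 : MvPolynomial (Fin 1) K) P) = 0 := by
  have h := eval_one P 0
  rw [hP] at h
  rw [← MvPolynomial.eval_zero]
  exact h

/-- The quadratic obstruction. -/
theorem square_colouring (e : ℚ) (he : e ≠ 0) : ∃ c : ℚ → Fin 4, ∀ x d : ℚ, d ≠ 0 →
    ¬ (c (x + d) = c x ∧ c (x + e / d) = c x ∧ c (x + d + e / d) = c x) := by
  refine ⟨fun x => ((⌊x ^ 2 / e⌋ : ℤ) : ZMod 4), fun x d hd h => ?_⟩
  obtain ⟨h1, h2, h3⟩ := h
  simp only at h1 h2 h3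
  set a0 := ⌊x ^ 2 / e⌋ with ha0
  set a1 := ⌊(x + d) ^ 2 / e⌋ with ha1
  set a2 := ⌊(x + e / d) ^ 2 / e⌋ with ha2
  set a3 := ⌊(x + d + e / d) ^ 2 / e⌋ with ha3
  have g1 : (4 : ℤ) ∣ a0 - a1 := (ZMod.intCast_eq_intCast_iff_dvd_sub a1 a0 4).1 h1
  have g2 : (4 : ℤ) ∣ a0 - a2 := (ZMod.intCast_eq_intCast_iff_dvd_sub a2 a0 4).1 h2
  have g3 : (4 : ℤ) ∣ a0 - a3 := (ZMod.intCast_eq_intCast_iff_dvd_sub a3 a0 4).1 h3
  have key : (x + d + e / d) ^ 2 / e - (x + d) ^ 2 / e - (x + e / d) ^ 2 / e + x ^ 2 / e = 2 := by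
    field_simp
    ring
  have l0 := Int.floor_le (x ^ 2 / e)
  have l1 := Int.floor_le ((x + d) ^ 2 / e)
  have l2 := Int.floor_le ((x + e / d) ^ 2 / e)
  have l3 := Int.floor_le ((x + d + e / d) ^ 2 / e)
  have u0 := Int.lt_floor_add_one (x ^ 2 / e)
  have u1 := Int.lt_floor_add_one ((x + d) ^ 2 / e)
  have u2 := Int.lt_floor_add_one ((x + e / d) ^ 2 / e)
  have u3 := Int.lt_floor_add_one ((x + d + e / d) ^ 2 / e)
  rw [← ha0] at l0 u0
  rw [← ha1] at l1 u1
  rw [← ha2] at l2 u2
  rw [← ha3] at l3 u3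
  have b1 : (0 : ℚ) < ((a3 - a1 - a2 + a0 : ℤ) : ℚ) := by
    push_cast
    linarith
  have b2 : ((a3 - a1 - a2 + a0 : ℤ) : ℚ) < 4 := by
    push_cast
    linarith
  have b1' : 0 < a3 - a1 - a2 + a0 := by exact_mod_cast b1
  have b2' : a3 - a1 - a2 + a0 < 4 := by exact_mod_cast b2
  omega

/-- **Patterns `{x + P(d) : P ∈ F} ∪ {x + Q(d) + ∑ e_l d ^ ν_l}` are partition regular.**

(1) Let `R` be an infinite integral domain with field of fractions `K` (for instance `R = ℤ`,
`K = ℚ`, or `R = K` an infinite field), `ν` an integral `p × k` matrix (entries of any sign) which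
maps `ℤ ^ k` onto `ℤ ^ p`, `F` a finite set of polynomials in `k` variables over `K` without constant
term, `Q` one more such polynomial, `e_1, …, e_p ∈ K` and `D` a finite subset of `R`. For every
colouring `c` of `K` with finitely many colours there are `x ∈ K` and nonzero elements
`d_1, …, d_k` of `R`, none of them in `D`, such that `x`, all the points `x + P(d)`, `P ∈ F`, and
`x + Q(d) + ∑ e_l ∏ d_i ^ ν_{l i}` have the same colour.

(2) For `K = ℚ` the `d_i` can be taken to be positive integers larger than any given bound.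

(3) One variable, `K = ℚ`: `x`, the `x + P(d)`, `P ∈ F`, and `x + Q(d) + e / d` have the same colour.

(4) The answer to the question, in its own words.

(5) There cannot be two additional points: for every `e ≠ 0` some colouring of `ℚ` with four colours
has no monochromatic `x`, `x + d`, `x + e / d`, `x + d + e / d`. -/
theorem result :
    (∀ (R K : Type) [CommRing R] [IsDomain R] [Infinite R] [Field K] [Algebra R K]
      [IsFractionRing R K] (κ : Type) [Finite κ] (c : K → κ) (k p : ℕ) (ν : Fin p → Fin k → ℤ),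
      (∀ b : Fin p → ℤ, ∃ a : Fin k → ℤ, ∀ l, ∑ i, ν l i * a i = b l) →
      ∀ (F : Finset (MvPolynomial (Fin k) K)) (Q : MvPolynomial (Fin k) K),
        (∀ P ∈ F, MvPolynomial.constantCoeff P = 0) → MvPolynomial.constantCoeff Q = 0 →
        ∀ (e : Fin p → K) (D : Finset R),
        ∃ (x : K) (d : Fin k → R), (∀ i, d i ≠ 0 ∧ d i ∉ D) ∧
          (∀ P ∈ F, c (x + MvPolynomial.eval (fun i => algebraMap R K (d i)) P) = c x) ∧
          c (x + MvPolynomial.eval (fun i => algebraMap R K (d i)) Q +
            ∑ l, e l * ∏ i, algebraMap R K (d i) ^ ν l i) = c x) ∧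
    (∀ (κ : Type) [Finite κ] (c : ℚ → κ) (k p : ℕ) (ν : Fin p → Fin k → ℤ),
      (∀ b : Fin p → ℤ, ∃ a : Fin k → ℤ, ∀ l, ∑ i, ν l i * a i = b l) →
      ∀ (F : Finset (MvPolynomial (Fin k) ℚ)) (Q : MvPolynomial (Fin k) ℚ),
        (∀ P ∈ F, MvPolynomial.constantCoeff P = 0) → MvPolynomial.constantCoeff Q = 0 →
        ∀ (e : Fin p → ℚ) (D : ℕ),
        ∃ (x : ℚ) (d : Fin k → ℕ), (∀ i, D < d i) ∧
          (∀ P ∈ F, c (x + MvPolynomial.eval (fun i => (d i : ℚ)) P) = c x) ∧
          c (x + MvPolynomial.eval (fun i => (d i : ℚ)) Q +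
            ∑ l, e l * ∏ i, (d i : ℚ) ^ ν l i) = c x) ∧
    (∀ (κ : Type) [Finite κ] (c : ℚ → κ) (F : Finset (Polynomial ℚ)) (Q : Polynomial ℚ),
      (∀ P ∈ F, P.eval 0 = 0) → Q.eval 0 = 0 → ∀ (e : ℚ) (D : ℕ),
        ∃ (x : ℚ) (d : ℕ), D < d ∧ (∀ P ∈ F, c (x + P.eval (d : ℚ)) = c x) ∧
          c (x + Q.eval (d : ℚ) + e / d) = c x) ∧
    (∀ (r : ℕ) (c : ℚ → Fin r), ∃ x d : ℚ, d ≠ 0 ∧ c x = c (x + d) ∧ c x = c (x + 1 / d)) ∧
    (∀ e : ℚ, e ≠ 0 → ∃ c : ℚ → Fin 4, ∀ x d : ℚ, d ≠ 0 →
      ¬ (c (x + d) = c x ∧ c (x + e / d) = c x ∧ c (x + d + e / d) = c x)) := by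
  classical
  have h2 : ∀ (κ : Type) [Finite κ] (c : ℚ → κ) (k p : ℕ) (ν : Fin p → Fin k → ℤ),
      (∀ b : Fin p → ℤ, ∃ a : Fin k → ℤ, ∀ l, ∑ i, ν l i * a i = b l) →
      ∀ (F : Finset (MvPolynomial (Fin k) ℚ)) (Q : MvPolynomial (Fin k) ℚ),
        (∀ P ∈ F, MvPolynomial.constantCoeff P = 0) → MvPolynomial.constantCoeff Q = 0 →
        ∀ (e : Fin p → ℚ) (D : ℕ),
        ∃ (x : ℚ) (d : Fin k → ℕ), (∀ i, D < d i) ∧
          (∀ P ∈ F, c (x + MvPolynomial.eval (fun i => (d i : ℚ)) P) = c x) ∧
          c (x + MvPolynomial.eval (fun i => (d i : ℚ)) Q +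
            ∑ l, e l * ∏ i, (d i : ℚ) ^ ν l i) = c x := by
    intro κ _ c k p ν hν F Q hF hQ e D
    obtain ⟨Δ, hΔ, H⟩ := scaled good_pos κ ν hν F Q hF hQ
    -- a common denominator
    let N : ℕ := ∏ d ∈ Δ, ∏ l, (d l).den
    have hN : 0 < N := Finset.prod_pos fun d _ => Finset.prod_pos fun l _ => (d l).den_pos
    have hint : ∀ d ∈ Δ, ∀ l, ∃ m : ℕ, 0 < m ∧ (N : ℚ) * d l = m := by
      intro d hd l
      have h3 : (d l).den ∣ N :=
        (Finset.dvd_prod_of_mem (fun l => (d l).den) (Finset.mem_univ l)).trans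
          (Finset.dvd_prod_of_mem (fun d => ∏ l, (d l).den) hd)
      obtain ⟨a, ha⟩ := h3
      have hpos : 0 < d l := hΔ d hd l
      have hnum : 0 < (d l).num := Rat.num_pos.2 hpos
      have ha0 : 0 < a := by
        rcases Nat.eq_zero_or_pos a with h | h
        · rw [h, mul_zero] at ha
          omega
        · exact h
      refine ⟨a * (d l).num.toNat, Nat.mul_pos ha0 (by omega), ?_⟩
      have h4 : ((d l).num.toNat : ℚ) = (d l).num := by
        have : (((d l).num.toNat : ℤ) : ℚ) = (d l).num := by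
          rw [Int.toNat_of_nonneg hnum.le]
        exact_mod_cast this
      have h5 : (d l : ℚ) * (d l).den = (d l).num := Rat.mul_den_eq_num (d l)
      rw [ha]
      push_cast
      rw [h4, ← h5]
      ring
    obtain ⟨x, d, hd, h3, h4⟩ := H c e (((D + 1) * N : ℕ) : ℚ)
      (by exact_mod_cast (Nat.mul_pos (Nat.succ_pos D) hN).ne')
    choose q hm using fun l => hint d hd l
    have hcast : ∀ l, (((D + 1) * N : ℕ) : ℚ) * d l = (((D + 1) * q l : ℕ) : ℚ) := by
      intro l
      push_cast
      rw [mul_assoc, (hm l).2]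
    refine ⟨x, fun l => (D + 1) * q l, fun i => ?_, fun t ht => ?_, ?_⟩
    · calc D < D + 1 := Nat.lt_succ_self D
        _ = (D + 1) * 1 := (Nat.mul_one _).symm
        _ ≤ (D + 1) * q i := Nat.mul_le_mul_left _ (hm i).1
    · have := h3 t ht
      simp only [hcast] at this
      exact this
    · simp only [hcast] at h4
      exact h4
  have h3 : ∀ (κ : Type) [Finite κ] (c : ℚ → κ) (F : Finset (Polynomial ℚ)) (Q : Polynomial ℚ),
      (∀ P ∈ F, P.eval 0 = 0) → Q.eval 0 = 0 → ∀ (e : ℚ) (D : ℕ),
        ∃ (x : ℚ) (d : ℕ), D < d ∧ (∀ P ∈ F, c (x + P.eval (d : ℚ)) = c x) ∧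
          c (x + Q.eval (d : ℚ) + e / d) = c x := by
    intro κ _ c F Q hF hQ e D
    obtain ⟨x, d, hd, h4, h5⟩ := h2 κ c 1 1 (fun _ _ => -1)
      (fun b => ⟨fun _ => -b 0, fun l => by simp [Subsingleton.elim l 0]⟩)
      (F.image (fun P => Polynomial.aeval (MvPolynomial.X 0) P))
      (Polynomial.aeval (MvPolynomial.X 0) Q)
      (by
        intro P hP
        obtain ⟨P', hP', rfl⟩ := Finset.mem_image.1 hP
        exact constantCoeff_one P' (hF P' hP'))
      (constantCoeff_one Q hQ) (fun _ => e) D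
    have h6 : (fun i : Fin 1 => (d i : ℚ)) = fun _ => (d 0 : ℚ) := by
      funext i
      rw [Subsingleton.elim i 0]
    refine ⟨x, d 0, hd 0, fun P hP => ?_, ?_⟩
    · have := h4 _ (Finset.mem_image.2 ⟨P, hP, rfl⟩)
      rwa [h6, eval_one] at this
    · rw [h6, eval_one] at h5
      simpa [div_eq_mul_inv] using h5
  refine ⟨?_, h2, h3, ?_, square_colouring⟩
  · intro R K _ _ _ _ _ _ κ _ c k p ν hν F Q hF hQ e D
    have : Infinite K := Infinite.of_injective _ (IsFractionRing.injective R K)
    obtain ⟨Δ, hΔ, H⟩ := scaled (good_ne K) κ ν hν F Q hF hQ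
    obtain ⟨b, hb⟩ := IsLocalization.exist_integer_multiples_of_finset (nonZeroDivisors R)
      (Δ.biUnion (fun d => (Finset.univ : Finset (Fin k)).image d))
    have hint : ∀ d ∈ Δ, ∀ l, ∃ m : R, algebraMap R K m = algebraMap R K b * d l := by
      intro d hd l
      have h3 : d l ∈ Δ.biUnion (fun d => (Finset.univ : Finset (Fin k)).image d) :=
        Finset.mem_biUnion.2 ⟨d, hd, Finset.mem_image.2 ⟨l, Finset.mem_univ _, rfl⟩⟩
      obtain ⟨m, hm⟩ := hb (d l) h3
      exact ⟨m, by rw [hm, Algebra.smul_def]⟩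
    have hb0 : (b : R) ≠ 0 := nonZeroDivisors.ne_zero b.2
    have hbK : algebraMap R K b ≠ 0 := by
      intro h
      exact hb0 (IsFractionRing.injective R K (by rw [h, map_zero]))
    -- the values of `v` to be avoided
    obtain ⟨v, hv⟩ := Set.Infinite.exists_notMem_finset (Set.infinite_univ (α := R))
      (insert 0 (((Δ ×ˢ (Finset.univ : Finset (Fin k))) ×ˢ D).biUnion (fun p =>
        if h : ∃ v : R, algebraMap R K v * (algebraMap R K b * p.1.1 p.1.2) =
          algebraMap R K p.2 then {h.choose} else ∅)))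
    have hv1 := hv.2
    rw [Finset.mem_insert, not_or] at hv1
    have hvK : algebraMap R K v ≠ 0 := by
      intro h
      exact hv1.1 (IsFractionRing.injective R K (by rw [h, map_zero]))
    obtain ⟨x, d, hd, h3, h4⟩ := H c e (algebraMap R K v * algebraMap R K b)
      (mul_ne_zero hvK hbK)
    choose q hm using fun l => hint d hd l
    have hcast : ∀ l, algebraMap R K v * algebraMap R K b * d l = algebraMap R K (v * q l) := by
      intro l
      rw [map_mul, hm l, mul_assoc]
    refine ⟨x, fun l => v * q l, fun l => ⟨?_, ?_⟩, fun t ht => ?_, ?_⟩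
    · intro h
      have h5 := hcast l
      have h' : v * q l = 0 := h
      rw [h', map_zero] at h5
      exact (mul_ne_zero (mul_ne_zero hvK hbK) (hΔ d hd l)) h5
    · intro h
      apply hv1.2
      rw [Finset.mem_biUnion]
      refine ⟨((d, l), v * q l), by simp [hd, h], ?_⟩
      have hex : ∃ v' : R, algebraMap R K v' * (algebraMap R K b * d l) =
          algebraMap R K (v * q l) := ⟨v, by rw [← hcast l, mul_assoc]⟩
      simp only
      rw [dif_pos hex, Finset.mem_singleton]
      have h5 := hex.choose_spec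
      have h6 : algebraMap R K hex.choose = algebraMap R K v := by
        have h7 : algebraMap R K b * d l ≠ 0 := mul_ne_zero hbK (hΔ d hd l)
        apply mul_right_cancel₀ h7
        rw [h5, ← hcast l, mul_assoc]
      exact (IsFractionRing.injective R K h6).symm
    · have := h3 t ht
      simp only [hcast] at this
      exact this
    · simp only [hcast] at h4
      exact h4
  · intro r c
    obtain ⟨x, d, hd, h4, h5⟩ := h3 (Fin r) c {Polynomial.X} 0 (by simp) (by simp) 1 0
    have h6 : (d : ℚ) ≠ 0 := by exact_mod_cast hd.ne'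
    refine ⟨x, d, h6, ?_, ?_⟩
    · have := h4 Polynomial.X (by simp)
      simpa using this.symm
    · simpa using h5.symm

end Pool.Agent.Results.MP_f16d24_co.LaurentPatterns
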